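import Mathlib
import Pool.Agent.V11131.ParTree
import Pool.Agent.V11131.PosCert

set_option autoImplicit false

namespace Pool.Agent.Results.MP_1a9240_co.LeafAttachment

open Finset Matrix Pool.Agent.V11131.ParTree Pool.Agent.V11131.PosCert

open Classical in
/-- The Ricci matrix of `T`, indexed by the edges of `T`. The degree of `x` is the number of
elements of its neighbour set. The diagonal entry at `e = xy` is `-(1/d_x + 1/d_y)`, and the entry
at `e ≠ e'` is `1/d_x` when `e` and `e'` share the vertex `x`, and `0` when they are disjoint. -/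
noncomputable def ricci {V : Type} [Fintype V] (T : SimpleGraph V) :
    Matrix T.edgeSet T.edgeSet ℝ := fun e e' =>
  if e = e' then - ∑ x ∈ univ.filter (fun x => x ∈ e.1), 1 / ((T.neighborSet x).ncard : ℝ)
  else ∑ x ∈ univ.filter (fun x => x ∈ e.1 ∧ x ∈ e'.1), 1 / ((T.neighborSet x).ncard : ℝ)

open Classical in
/-- The largest eigenvalue of the Ricci matrix of `T`. -/
noncomputable def lamMax {V : Type} [Fintype V] (T : SimpleGraph V) : ℝ :=
  sSup {l : ℝ | ∃ f : T.edgeSet → ℝ, f ≠ 0 ∧ ricci T *ᵥ f = l • f}

/-- Attaching a leaf at `v`: the new vertex is `none`, and its only neighbour is `v`. -/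
def attachLeaf {V : Type} (T : SimpleGraph V) (v : V) : SimpleGraph (Option V) where
  Adj a b := (∃ x y, a = some x ∧ b = some y ∧ T.Adj x y) ∨ (a = none ∧ b = some v) ∨
    (a = some v ∧ b = none)
  symm := ⟨fun a b h => by
    rcases h with ⟨x, y, h1, h2, h3⟩ | ⟨h1, h2⟩ | ⟨h1, h2⟩
    · exact Or.inl ⟨y, x, h2, h1, h3.symm⟩
    · exact Or.inr (Or.inr ⟨h2, h1⟩)
    · exact Or.inr (Or.inl ⟨h2, h1⟩)⟩
  loopless := ⟨fun a h => by
    rcases h with ⟨x, y, h1, h2, h3⟩ | ⟨h1, h2⟩ | ⟨h1, h2⟩
    · rw [h1] at h2
      exact h3.ne (Option.some_injective _ h2)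
    · rw [h1] at h2
      exact absurd h2 (by simp)
    · rw [h1] at h2
      exact absurd h2 (by simp)⟩

section General

variable {V : Type} [Fintype V]

open Classical in
/-- Weighted sum over the edges at `x`. -/
noncomputable def S (T : SimpleGraph V) (F : Sym2 V → ℝ) (x : V) : ℝ :=
  ∑ z, if T.Adj x z then F s(x, z) else 0

open Classical in
theorem sum_edges (T : SimpleGraph V) (F : Sym2 V → ℝ) (x : V) :
    (∑ e : T.edgeSet, if x ∈ e.1 then F e.1 else 0) = S T F x := by
  unfold S
  rw [← Finset.sum_filter, ← Finset.sum_filter]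
  symm
  refine Finset.sum_bij (fun z hz => (⟨s(x, z), (Finset.mem_filter.1 hz).2⟩ : T.edgeSet))
    ?_ ?_ ?_ ?_
  · intro z hz
    simp
  · intro a ha b hb hab
    have h1 : s(x, a) = s(x, b) := congrArg Subtype.val hab
    exact Sym2.congr_right.1 h1
  · rintro ⟨e, he⟩ hx
    have hx' : x ∈ e := (Finset.mem_filter.1 hx).2
    obtain ⟨z, rfl⟩ := hx'
    exact ⟨z, Finset.mem_filter.2 ⟨Finset.mem_univ _, he⟩, rfl⟩
  · intro z hz
    rfl

open Classical in
theorem degree_eq (T : SimpleGraph V) (x : V) :
    ((T.neighborSet x).ncard : ℝ) = ∑ z, if T.Adj x z then (1 : ℝ) else 0 := by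
  rw [← Finset.sum_filter, Finset.sum_const, nsmul_eq_mul, mul_one]
  congr 1
  rw [← Set.ncard_coe_finset]
  congr 1
  ext z
  simp

open Classical in
theorem ricci_symm (T : SimpleGraph V) (e e' : T.edgeSet) : ricci T e e' = ricci T e' e := by
  unfold ricci
  by_cases h : e = e'
  · subst h; rfl
  · rw [if_neg h, if_neg (Ne.symm h)]
    apply Finset.sum_congr _ (fun _ _ => rfl)
    ext x
    simp [and_comm]

theorem ricci_off (T : SimpleGraph V) (e e' : T.edgeSet) (h : e ≠ e') : 0 ≤ ricci T e e' := by
  unfold ricci
  rw [if_neg h]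
  apply Finset.sum_nonneg
  intro x _
  positivity

open Classical in
theorem ricci_action (T : SimpleGraph V) (F : Sym2 V → ℝ) (x y : V) (hxy : T.Adj x y) :
    (ricci T *ᵥ fun e => F e.1) ⟨s(x, y), hxy⟩ =
      (S T F x - 2 * F s(x, y)) / ((T.neighborSet x).ncard : ℝ) +
      (S T F y - 2 * F s(x, y)) / ((T.neighborSet y).ncard : ℝ) := by
  set d : V → ℝ := fun x => ((T.neighborSet x).ncard : ℝ) with hd
  have h1 : ∀ e' : T.edgeSet, ricci T ⟨s(x, y), hxy⟩ e' * F e'.1 =
      (if x ∈ e'.1 then F e'.1 else 0) * (1 / d x) +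
      (if y ∈ e'.1 then F e'.1 else 0) * (1 / d y) -
      (if (⟨s(x, y), hxy⟩ : T.edgeSet) = e' then
        2 * F s(x, y) * (1 / d x + 1 / d y) else 0) := by
    intro e'
    have hfil1 : (univ.filter fun z => z ∈ (⟨s(x, y), hxy⟩ : T.edgeSet).1) = {x, y} := by
      ext z
      simp
    by_cases h : (⟨s(x, y), hxy⟩ : T.edgeSet) = e'
    · unfold ricci
      rw [if_pos h, if_pos h, hfil1, Finset.sum_pair hxy.ne]
      have hx : x ∈ e'.1 := by rw [← h]; simp
      have hy : y ∈ e'.1 := by rw [← h]; simp
      rw [if_pos hx, if_pos hy, ← h]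
      ring
    · unfold ricci
      rw [if_neg h, if_neg h, sub_zero]
      have hfil2 : (univ.filter fun z => z ∈ (⟨s(x, y), hxy⟩ : T.edgeSet).1 ∧ z ∈ e'.1) =
          ({x, y} : Finset V).filter fun z => z ∈ e'.1 := by
        ext z
        simp
      rw [hfil2, Finset.sum_filter, Finset.sum_pair hxy.ne, add_mul]
      congr 1
      · by_cases hx : x ∈ e'.1
        · rw [if_pos hx, if_pos hx, mul_comm]
        · rw [if_neg hx, if_neg hx, zero_mul, zero_mul]
      · by_cases hy : y ∈ e'.1
        · rw [if_pos hy, if_pos hy, mul_comm]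
        · rw [if_neg hy, if_neg hy, zero_mul, zero_mul]
  rw [Matrix.mulVec, dotProduct, Finset.sum_congr rfl fun e' _ => h1 e',
    Finset.sum_sub_distrib, Finset.sum_add_distrib, ← Finset.sum_mul, ← Finset.sum_mul,
    sum_edges, sum_edges, Finset.sum_ite_eq, if_pos (Finset.mem_univ _)]
  ring

end General

section Par

variable {V : Type} {par : V → Option V} {lvl : V → ℕ}
  {h : ∀ x y, par x = some y → lvl x = lvl y + 1}

open Classical in
/-- The edge labelling given by labels of the children. -/
noncomputable def lab (par : V → Option V) (lvl : V → ℕ)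
    (h : ∀ x y, par x = some y → lvl x = lvl y + 1) (H : V → ℝ) : Sym2 V → ℝ :=
  Sym2.lift ⟨fun x y => if par x = some y then H x else if par y = some x then H y else 0, by
    intro x y
    change (if par x = some y then H x else if par y = some x then H y else 0) =
      (if par y = some x then H y else if par x = some y then H x else 0)
    by_cases h1 : par x = some y
    · have h2 : ¬ par y = some x := fun h2 => not_both (h := h) h1 h2
      rw [if_pos h1, if_neg h2, if_pos h1]
    · rw [if_neg h1]
      by_cases h2 : par y = some x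
      · rw [if_pos h2, if_pos h2]
      · rw [if_neg h2, if_neg h2, if_neg h1]⟩

theorem lab_of_par {H : V → ℝ} {x y : V} (hxy : par x = some y) :
    lab par lvl h H s(x, y) = H x := by
  simp [lab, hxy]

theorem lab_of_par' {H : V → ℝ} {x y : V} (hxy : par y = some x) :
    lab par lvl h H s(x, y) = H y := by
  rw [Sym2.eq_swap]
  exact lab_of_par hxy

theorem S_par [Fintype V] [DecidableEq V] (H : V → ℝ) (x : V) :
    S (ofPar par lvl h) (lab par lvl h H) x =
      (if par x = none then 0 else H x) + ∑ z, if par z = some x then H z else 0 := by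
  unfold S
  have hsum := @sum_adj V par lvl h _ _ x (fun z => lab par lvl h H s(x, z))
    (Classical.decRel _)
  refine (Eq.trans ?_ hsum).trans ?_
  · rfl
  congr 1
  · cases hp : par x with
    | none => simp
    | some p =>
      simp only [Option.elim_some]
      rw [lab_of_par hp]
      simp
  · apply Finset.sum_congr rfl
    intro z _
    by_cases hz : par z = some x
    · rw [if_pos hz, if_pos hz, lab_of_par' hz]
    · rw [if_neg hz, if_neg hz]

theorem deg_par [Fintype V] [DecidableEq V] (x : V) :
    (((ofPar par lvl h).neighborSet x).ncard : ℝ) =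
      (if par x = none then 0 else 1) + ∑ z, if par z = some x then (1 : ℝ) else 0 := by
  rw [degree_eq]
  refine (@sum_adj V par lvl h _ _ x (fun _ => (1 : ℝ)) (Classical.decRel _)).trans ?_
  congr 1
  cases hp : par x with
  | none => simp
  | some p => simp

/-- Lower bound certificate. -/
theorem lam_ge [Fintype V] (H : V → ℝ) (hH : ∀ x, 0 < H x) (μ : ℝ) (x0 y0 : V)
    (h0 : par x0 = some y0)
    (hc : ∀ x y, par x = some y → μ * H x ≤
      (S (ofPar par lvl h) (lab par lvl h H) x - 2 * H x) /
        (((ofPar par lvl h).neighborSet x).ncard : ℝ) +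
      (S (ofPar par lvl h) (lab par lvl h H) y - 2 * H x) /
        (((ofPar par lvl h).neighborSet y).ncard : ℝ)) :
    μ ≤ lamMax (ofPar par lvl h) := by
  classical
  have hpos : ∀ e : (ofPar par lvl h).edgeSet, 0 < lab par lvl h H e.1 := by
    rintro ⟨e, he⟩
    induction e with
    | h x y =>
      rcases he with he | he
      · simp only
        rw [lab_of_par he]; exact hH x
      · simp only
        rw [lab_of_par' he]; exact hH y
  obtain ⟨l, f, hf, hev, hl⟩ := exists_eig_ge (ricci (ofPar par lvl h))
    (ricci_symm _) (fun e => lab par lvl h H e.1) (fun e => (hpos e).le) (by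
      intro h1
      have h2 := congrFun h1 ⟨s(x0, y0), Or.inl h0⟩
      have h3 := hpos ⟨s(x0, y0), Or.inl h0⟩
      simp only [Pi.zero_apply] at h2
      exact h3.ne' h2) μ (by
      rintro ⟨e, he⟩
      induction e with
      | h x y =>
        rcases he with he1 | he1
        · rw [ricci_action _ _ x y (Or.inl he1)]
          simp only
          rw [lab_of_par he1]
          exact hc x y he1
        · rw [ricci_action _ _ x y (Or.inr he1)]
          simp only
          rw [lab_of_par' he1, add_comm]
          exact hc y x he1)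
  exact hl.trans (le_csSup (bddAbove _) ⟨f, hf, hev⟩)

/-- Upper bound certificate. -/
theorem lam_le [Fintype V] (H : V → ℝ) (hH : ∀ x, 0 < H x) (μ : ℝ) (hμ : 0 ≤ μ)
    (hc : ∀ x y, par x = some y →
      (S (ofPar par lvl h) (lab par lvl h H) x - 2 * H x) /
        (((ofPar par lvl h).neighborSet x).ncard : ℝ) +
      (S (ofPar par lvl h) (lab par lvl h H) y - 2 * H x) /
        (((ofPar par lvl h).neighborSet y).ncard : ℝ) ≤ μ * H x) :
    lamMax (ofPar par lvl h) ≤ μ := by
  classical
  have hpos : ∀ e : (ofPar par lvl h).edgeSet, 0 < lab par lvl h H e.1 := by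
    rintro ⟨e, he⟩
    induction e with
    | h x y =>
      rcases he with he | he
      · simp only
        rw [lab_of_par he]; exact hH x
      · simp only
        rw [lab_of_par' he]; exact hH y
  apply Real.sSup_le _ hμ
  rintro l ⟨f, hf, hev⟩
  refine eig_le (ricci (ofPar par lvl h)) (ricci_off _) (fun e => lab par lvl h H e.1) hpos μ
    ?_ hf hev
  rintro ⟨e, he⟩
  induction e with
  | h x y =>
    rcases he with he1 | he1
    · rw [ricci_action _ _ x y (Or.inl he1)]
      simp only
      rw [lab_of_par he1]
      exact hc x y he1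
    · rw [ricci_action _ _ x y (Or.inr he1)]
      simp only
      rw [lab_of_par' he1, add_comm]
      exact hc y x he1

end Par

/-- Vertices of the example tree: a root with 3 children, then 20, 12 and 20 children. -/
abbrev B : Type := Unit ⊕ Fin 3 ⊕ (Fin 3 × Fin 20) ⊕ (Fin 3 × Fin 20 × Fin 12) ⊕
  (Fin 3 × Fin 20 × Fin 12 × Fin 20)

/-- Parents in the example tree. -/
def bpar : B → Option B
  | .inl _ => none
  | .inr (.inl _) => some (.inl ())
  | .inr (.inr (.inl (i, _))) => some (.inr (.inl i))
  | .inr (.inr (.inr (.inl (i, j, _)))) => some (.inr (.inr (.inl (i, j))))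
  | .inr (.inr (.inr (.inr (i, j, k, _)))) => some (.inr (.inr (.inr (.inl (i, j, k)))))

/-- Levels in the example tree. -/
def blvl : B → ℕ
  | .inl _ => 0
  | .inr (.inl _) => 1
  | .inr (.inr (.inl _)) => 2
  | .inr (.inr (.inr (.inl _))) => 3
  | .inr (.inr (.inr (.inr _))) => 4

theorem bh : ∀ x y, bpar x = some y → blvl x = blvl y + 1 := by
  rintro (_ | _ | ⟨i, _⟩ | ⟨i, j, _⟩ | ⟨i, j, k, _⟩) y h <;> simp only [bpar] at h
  · exact absurd h (by simp)
  all_goals
    rw [← Option.some_injective _ h]
    rfl

/-- Numbers of children by level. -/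
def nch : ℕ → ℝ
  | 0 => 3
  | 1 => 20
  | 2 => 12
  | 3 => 20
  | _ => 0

theorem children (g : ℕ → ℝ) (x : B) :
    (∑ z, if bpar z = some x then g (blvl z) else 0) = nch (blvl x) * g (blvl x + 1) := by
  rcases x with _ | i | ⟨i, j⟩ | ⟨i, j, k⟩ | ⟨i, j, k, l⟩
  · simp [Fintype.sum_sum_type, bpar, blvl, nch]
  · simp only [Fintype.sum_sum_type, Fintype.sum_prod_type, bpar, blvl, nch]
    rw [Finset.sum_eq_zero (s := (univ : Finset Unit)) (by intros; simp)]
    rw [Finset.sum_eq_zero (s := (univ : Finset (Fin 3))) (by intros; simp)]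
    rw [Finset.sum_eq_single i (by intro b _ hb; simp [hb]) (by simp)]
    simp
  · simp [Fintype.sum_sum_type, Fintype.sum_prod_type, bpar, blvl, nch, ite_and]
    rw [Finset.sum_eq_single j (by intro b _ hb; simp [hb]) (by simp)]
    simp
  · simp [Fintype.sum_sum_type, Fintype.sum_prod_type, bpar, blvl, nch, ite_and]
    rw [Finset.sum_eq_single k (by intro b _ hb; simp [hb]) (by simp)]
    simp
  · simp [Fintype.sum_sum_type, bpar, blvl, nch]

theorem blvl_le (x : B) : blvl x ≤ 4 := by
  rcases x with _ | i | ⟨i, j⟩ | ⟨i, j, k⟩ | ⟨i, j, k, l⟩ <;> simp [blvl]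

theorem bpar_none (x : B) : bpar x = none ↔ blvl x = 0 := by
  rcases x with _ | i | ⟨i, j⟩ | ⟨i, j, k⟩ | ⟨i, j, k, l⟩ <;> simp [bpar, blvl]

/-- The example tree. -/
abbrev T0 : SimpleGraph B := ofPar bpar blvl bh

/-- Edge values for the lower bound. -/
def hv : ℕ → ℝ
  | 1 => 24000
  | 2 => 19714
  | 3 => 4908
  | _ => 193

theorem hv_pos (n : ℕ) : 0 < hv n := by
  unfold hv
  split <;> norm_num

theorem lower : (1068 / 1000 : ℝ) ≤ lamMax T0 := by
  have hS : ∀ x : B, S T0 (lab bpar blvl bh fun x => hv (blvl x)) x =
      (if blvl x = 0 then 0 else hv (blvl x)) + nch (blvl x) * hv (blvl x + 1) := by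
    intro x
    rw [S_par, children hv x]
    simp only [bpar_none]
  have hd : ∀ x : B, ((T0.neighborSet x).ncard : ℝ) =
      (if blvl x = 0 then 0 else 1) + nch (blvl x) := by
    intro x
    rw [deg_par, children (fun _ => 1) x]
    simp only [bpar_none, mul_one]
  refine lam_ge (fun x => hv (blvl x)) (fun x => hv_pos _) _ (.inr (.inl 0)) (.inl ()) rfl ?_
  intro x y hxy
  have hl := bh x y hxy
  have h4 := blvl_le x
  rw [hS x, hS y, hd x, hd y, hl]
  have hy : blvl y ≤ 3 := by omega
  generalize blvl y = n at hy
  interval_cases n <;> norm_num [hv, nch]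

/-- Parents after attaching a leaf at the root. -/
def cpar : Option B → Option (Option B)
  | none => some (some (.inl ()))
  | some x => (bpar x).map some

/-- Levels after attaching a leaf at the root. -/
def clvl : Option B → ℕ
  | none => 1
  | some x => blvl x

theorem ch : ∀ x y, cpar x = some y → clvl x = clvl y + 1 := by
  rintro (_ | x) y h
  · simp only [cpar] at h
    rw [← Option.some_injective _ h]
    rfl
  · simp only [cpar] at h
    obtain ⟨z, hz, hzy⟩ := Option.map_eq_some_iff.1 h
    rw [← hzy]
    exact bh x z hz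

theorem attach_eq : attachLeaf T0 (.inl ()) = ofPar cpar clvl ch := by
  ext a b
  rw [ofPar_adj]
  constructor
  · rintro (⟨x, y, h1, h2, h3⟩ | ⟨h1, h2⟩ | ⟨h1, h2⟩)
    · subst h1 h2
      rcases h3 with h3 | h3
      · left; simp [cpar, h3]
      · right; simp [cpar, h3]
    · subst h1 h2
      left; rfl
    · subst h1 h2
      right; rfl
  · intro hab
    cases a with
    | none =>
      cases b with
      | none => simp [cpar] at hab
      | some y =>
        rcases hab with hab | hab
        · simp only [cpar] at hab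
          exact Or.inr (Or.inl ⟨rfl, (Option.some_injective _ hab).symm⟩)
        · simp only [cpar] at hab
          obtain ⟨z, hz, hzy⟩ := Option.map_eq_some_iff.1 hab
          exact absurd hzy (by simp)
    | some x =>
      cases b with
      | none =>
        rcases hab with hab | hab
        · simp only [cpar] at hab
          obtain ⟨z, hz, hzy⟩ := Option.map_eq_some_iff.1 hab
          exact absurd hzy (by simp)
        · simp only [cpar] at hab
          exact Or.inr (Or.inr ⟨(Option.some_injective _ hab).symm, rfl⟩)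
      | some y =>
        refine Or.inl ⟨x, y, rfl, rfl, ?_⟩
        rcases hab with hab | hab
        · simp only [cpar] at hab
          obtain ⟨z, hz, hzy⟩ := Option.map_eq_some_iff.1 hab
          left
          rw [hz, Option.some_injective _ hzy]
        · simp only [cpar] at hab
          obtain ⟨z, hz, hzy⟩ := Option.map_eq_some_iff.1 hab
          right
          rw [hz, Option.some_injective _ hzy]

/-- Edge values for the upper bound. -/
def kv : ℕ → ℝ
  | 1 => 24000
  | 2 => 19773
  | 3 => 4925
  | _ => 194

theorem kv_pos (n : ℕ) : 0 < kv n := by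
  unfold kv
  split <;> norm_num

/-- Edge values for the upper bound, with the new edge. -/
def cv : Option B → ℝ
  | none => 7766
  | some x => kv (blvl x)

theorem cv_pos (x : Option B) : 0 < cv x := by
  cases x with
  | none => norm_num [cv]
  | some x => exact kv_pos _

theorem cchildren_some (g : ℕ → ℝ) (t : ℝ) (x : B) :
    (∑ z : Option B, if cpar z = some (some x) then
      (z.elim t fun y => g (blvl y)) else 0) =
      (if blvl x = 0 then t else 0) + nch (blvl x) * g (blvl x + 1) := by
  rw [Fintype.sum_option, ← children g x]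
  congr 1
  · simp only [cpar, Option.elim_none]
    have : (some (some (.inl ())) : Option (Option B)) = some (some x) ↔ blvl x = 0 := by
      rcases x with _ | i | ⟨i, j⟩ | ⟨i, j, k⟩ | ⟨i, j, k, l⟩ <;> simp [blvl]
    simp only [this]
  · apply Finset.sum_congr rfl
    intro z _
    simp only [cpar, Option.elim_some]
    have : (bpar z).map some = some (some x) ↔ bpar z = some x := by
      rw [Option.map_eq_some_iff]
      constructor
      · rintro ⟨a, ha, hax⟩
        rw [ha, Option.some_injective _ hax]
      · intro h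
        exact ⟨x, h, rfl⟩
    simp only [this]

theorem cchildren_none (g : Option B → ℝ) :
    (∑ z : Option B, if cpar z = some none then g z else 0) = 0 := by
  apply Finset.sum_eq_zero
  intro z _
  rw [if_neg]
  cases z with
  | none => simp [cpar]
  | some z => simp [cpar]

theorem cpar_none (x : B) : cpar (some x) = none ↔ blvl x = 0 := by
  simp only [cpar, Option.map_eq_none_iff]
  exact bpar_none x

theorem upper : lamMax (attachLeaf T0 (.inl ())) ≤ (106798 / 100000 : ℝ) := by
  rw [attach_eq]
  have hcv : cv = fun z => z.elim 7766 fun y => kv (blvl y) := by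
    funext z
    cases z <;> rfl
  have hS : ∀ x : B, S (ofPar cpar clvl ch) (lab cpar clvl ch cv) (some x) =
      (if blvl x = 0 then 0 else kv (blvl x)) +
      ((if blvl x = 0 then 7766 else 0) + nch (blvl x) * kv (blvl x + 1)) := by
    intro x
    rw [S_par]
    simp only [cpar_none]
    rw [hcv, cchildren_some kv 7766 x]
    rfl
  have hS' : S (ofPar cpar clvl ch) (lab cpar clvl ch cv) none = 7766 := by
    rw [S_par, cchildren_none]
    simp [cpar, cv]
  have hd : ∀ x : B, (((ofPar cpar clvl ch).neighborSet (some x)).ncard : ℝ) =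
      (if blvl x = 0 then 0 else 1) + ((if blvl x = 0 then 1 else 0) + nch (blvl x)) := by
    intro x
    rw [deg_par]
    simp only [cpar_none]
    have h1 := cchildren_some (fun _ => 1) 1 x
    have h2 : ∀ z : Option B, (z.elim (1 : ℝ) fun _ => (1 : ℝ)) = 1 := by
      intro z; cases z <;> rfl
    simp only [h2, mul_one] at h1
    rw [h1]
  have hd' : (((ofPar cpar clvl ch).neighborSet none).ncard : ℝ) = 1 := by
    rw [deg_par, cchildren_none (fun _ => 1)]
    simp [cpar]
  refine lam_le cv cv_pos _ (by norm_num) ?_
  intro x y hxy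
  cases x with
  | none =>
    simp only [cpar] at hxy
    rw [← Option.some_injective _ hxy, hS', hd', hS, hd]
    norm_num [cv, blvl, nch, kv]
  | some x =>
    cases y with
    | none =>
      simp only [cpar] at hxy
      obtain ⟨z, hz, hzy⟩ := Option.map_eq_some_iff.1 hxy
      exact absurd hzy (by simp)
    | some y =>
      have hl : blvl x = blvl y + 1 := ch _ _ hxy
      have h4 := blvl_le x
      have hcx : cv (some x) = kv (blvl x) := rfl
      rw [hS x, hS y, hd x, hd y, hcx, hl]
      have hy : blvl y ≤ 3 := by omega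
      generalize blvl y = n at hy
      interval_cases n <;> norm_num [kv, nch]

/-- There are a tree `T` and a vertex `v` of degree `3` in `T` such that attaching a leaf at `v`
strictly decreases the largest eigenvalue of the Ricci matrix. -/
theorem result : ∃ (V : Type) (_ : Fintype V) (T : SimpleGraph V) (v : V), T.IsTree ∧
    (T.neighborSet v).ncard = 3 ∧ lamMax (attachLeaf T v) < lamMax T := by
  classical
  refine ⟨B, inferInstance, T0, .inl (), ?_, ?_, ?_⟩
  · apply isTree (.inl ())
    · intro x hx hn
      apply hx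
      rcases x with _ | i | ⟨i, j⟩ | ⟨i, j, k⟩ | ⟨i, j, k, l⟩
      · rfl
      all_goals simp [bpar] at hn
    · rfl
  · have h : ((T0.neighborSet (.inl ())).ncard : ℝ) = 3 := by
      rw [deg_par, children (fun _ => 1)]
      norm_num [bpar, nch, blvl]
    exact_mod_cast h
  · have h1 := lower
    have h2 := upper
    have h3 : (106798 / 100000 : ℝ) < 1068 / 1000 := by norm_num
    linarith

end Pool.Agent.Results.MP_1a9240_co.LeafAttachment
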